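import Pool.Agent.Y278.MK.Stm

/-!
# The Fourier transform of the indicator as a boundary integral (`S_AREA`)
-/

set_option autoImplicit false

namespace Pool.Agent.Z932.MK

open MeasureTheory Set Real Filter Topology
open Pool.Agent.Y278.MK

section

variable {h : ℝ → ℝ}

theorem hd1 (hh : C2P h) (x : ℝ) : HasDerivAt h (deriv h x) x :=
  (hh.1.differentiable (by norm_num) x).hasDerivAt

theorem cd1 (hh : C2P h) : ContDiff ℝ 1 (deriv h) := by
  have h1 : ContDiff ℝ (1 + 1) h := by
    rw [one_add_one_eq_two]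
    exact hh.1
  exact (contDiff_succ_iff_deriv.1 h1).2.2

theorem hd2 (hh : C2P h) (x : ℝ) : HasDerivAt (deriv h) (deriv (deriv h) x) x :=
  ((cd1 hh).differentiable (by norm_num) x).hasDerivAt

theorem cont_h (hh : C2P h) : Continuous h := hh.1.continuous

theorem cont_h1 (hh : C2P h) : Continuous (deriv h) := (cd1 hh).continuous

theorem cont_h2 (hh : C2P h) : Continuous (deriv (deriv h)) :=
  (cd1 hh).continuous_deriv (by norm_num)

theorem cont_rho (hh : C2P h) : Continuous (rho h) := (cont_h hh).add (cont_h2 hh)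

theorem per (hh : C2P h) : Function.Periodic h (2 * π) := hh.2

/-- the second coordinate of the boundary point -/
noncomputable def zz (h : ℝ → ℝ) (x : ℝ) : ℝ := h x * sin x + deriv h x * cos x

theorem hasDerivAt_yy (hh : C2P h) (x : ℝ) : HasDerivAt (yy h) (-(rho h x * sin x)) x := by
  have h1 := ((hd1 hh x).mul (hasDerivAt_cos x)).sub ((hd2 hh x).mul (hasDerivAt_sin x))
  refine h1.congr_deriv ?_
  unfold rho
  ring

theorem hasDerivAt_zz (hh : C2P h) (x : ℝ) : HasDerivAt (zz h) (rho h x * cos x) x := by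
  have h1 := ((hd1 hh x).mul (hasDerivAt_sin x)).add ((hd2 hh x).mul (hasDerivAt_cos x))
  refine h1.congr_deriv ?_
  unfold rho
  ring

theorem P_eq (h : ℝ → ℝ) (a b : ℝ) : yy h a * cos b + zz h a * sin b =
    h a * cos (b - a) + deriv h a * sin (b - a) := by
  unfold yy zz
  rw [cos_sub, sin_sub]
  ring

theorem P_self (h : ℝ → ℝ) (a : ℝ) : yy h a * cos a + zz h a * sin a = h a := by
  rw [P_eq]
  simp

theorem key1 (hh : C2P h) (hρ : ∀ θ, 0 < rho h θ) (a b : ℝ) (hab : a ≠ b)
    (h1 : |b - a| ≤ π) : h a * cos (b - a) + deriv h a * sin (b - a) < h b := by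
  have hW : ∀ s, HasDerivAt (fun s => h s * cos (b - s) + deriv h s * sin (b - s))
      (rho h s * sin (b - s)) s := by
    intro s
    have hs : HasDerivAt (fun s : ℝ => b - s) (-1) s := (hasDerivAt_id s).const_sub b
    have h1 := ((hd1 hh s).mul hs.cos).add ((hd2 hh s).mul hs.sin)
    refine h1.congr_deriv ?_
    unfold rho
    ring
  have hWb : (fun s => h s * cos (b - s) + deriv h s * sin (b - s)) b = h b := by simp
  have hc : ContinuousOn (fun s => h s * cos (b - s) + deriv h s * sin (b - s)) univ :=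
    fun s _ => (hW s).continuousAt.continuousWithinAt
  have h3 := abs_le.1 h1
  rcases lt_or_gt_of_ne hab with h2 | h2
  · have hm : StrictMonoOn (fun s => h s * cos (b - s) + deriv h s * sin (b - s)) (Icc a b) := by
      refine strictMonoOn_of_deriv_pos (convex_Icc a b) (hc.mono (subset_univ _)) fun s hs => ?_
      rw [interior_Icc] at hs
      rw [(hW s).deriv]
      exact mul_pos (hρ s) (sin_pos_of_pos_of_lt_pi (by linarith [hs.2])
        (by linarith [hs.1, h3.2]))
    have h4 := hm (left_mem_Icc.2 h2.le) (right_mem_Icc.2 h2.le) h2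
    rwa [hWb] at h4
  · have hm : StrictAntiOn (fun s => h s * cos (b - s) + deriv h s * sin (b - s)) (Icc b a) := by
      refine strictAntiOn_of_deriv_neg (convex_Icc b a) (hc.mono (subset_univ _)) fun s hs => ?_
      rw [interior_Icc] at hs
      rw [(hW s).deriv]
      exact mul_neg_of_pos_of_neg (hρ s) (sin_neg_of_neg_of_neg_pi_lt (by linarith [hs.1])
        (by linarith [hs.2, h3.1]))
    have h4 := hm (left_mem_Icc.2 h2.le) (right_mem_Icc.2 h2.le) h2
    rwa [hWb] at h4

theorem key2 (hh : C2P h) (hρ : ∀ θ, 0 < rho h θ) (a b : ℝ) :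
    yy h a * cos b + zz h a * sin b ≤ h b ∧
      (yy h a * cos b + zz h a * sin b = h b → ∃ n : ℤ, b - a = n * (2 * π)) := by
  set n : ℤ := round ((b - a) / (2 * π)) with hn
  have hπ := two_pi_pos
  have h1 : |b - n * (2 * π) - a| ≤ π := by
    have h2 := abs_sub_round ((b - a) / (2 * π))
    rw [← hn] at h2
    have h3 : b - n * (2 * π) - a = ((b - a) / (2 * π) - n) * (2 * π) := by
      field_simp
      ring
    rw [h3, abs_mul, abs_of_pos hπ]
    nlinarith
  have e1 : cos (b - n * (2 * π)) = cos b := cos_sub_int_mul_two_pi b n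
  have e2 : sin (b - n * (2 * π)) = sin b := sin_sub_int_mul_two_pi b n
  have e3 : h (b - n * (2 * π)) = h b := (per hh).sub_int_mul_eq n
  by_cases hab : a = b - n * (2 * π)
  · have h2 := P_self h a
    constructor
    · rw [← e1, ← e2, ← e3, ← hab, h2]
    · intro _
      exact ⟨n, by rw [hab]; ring⟩
  · have h2 := key1 hh hρ a (b - n * (2 * π)) hab h1
    rw [← P_eq, e1, e2, e3] at h2
    exact ⟨h2.le, fun h3 => absurd h3 h2.ne⟩

/-- the parametrization of the domain -/
noncomputable def Ph (h : ℝ → ℝ) (p : ℝ × ℝ) : ℝ × ℝ := (p.2 * yy h p.1, p.2 * zz h p.1)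

/-- the parameters -/
def SS : Set (ℝ × ℝ) := Ico 0 (2 * π) ×ˢ Ioo 0 1

/-- the domain, as a subset of the real plane -/
def OM (h : ℝ → ℝ) : Set (ℝ × ℝ) := {p | ∀ θ : ℝ, p.1 * cos θ + p.2 * sin θ < h θ}

theorem inj_Ph (hh : C2P h) (h0 : ∀ θ, 0 < h θ) (hρ : ∀ θ, 0 < rho h θ) : InjOn (Ph h) SS := by
  rintro ⟨a, r⟩ ⟨ha, hr⟩ ⟨b, s⟩ ⟨hb, hs⟩ heq
  simp only [Ph, Prod.mk.injEq] at heq
  obtain ⟨e1, e2⟩ := heq
  simp only at ha hr hb hs
  have hP : ∀ c, r * (yy h a * cos c + zz h a * sin c) =
      s * (yy h b * cos c + zz h b * sin c) := by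
    intro c
    linear_combination cos c * e1 + sin c * e2
  have h1 := hP a
  have h2 := hP b
  rw [P_self] at h1 h2
  have k1 := (key2 hh hρ b a).1
  have k2 := (key2 hh hρ a b).1
  have hrs : r ≤ s := by
    have h3 : r * h a ≤ s * h a := by
      rw [h1]
      exact mul_le_mul_of_nonneg_left k1 hs.1.le
    exact le_of_mul_le_mul_right h3 (h0 a)
  have hsr : s ≤ r := by
    have h3 : s * h b ≤ r * h b := by
      rw [← h2]
      exact mul_le_mul_of_nonneg_left k2 hr.1.le
    exact le_of_mul_le_mul_right h3 (h0 b)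
  have hrs' : r = s := le_antisymm hrs hsr
  subst hrs'
  have h3 : yy h b * cos a + zz h b * sin a = h a := (mul_left_cancel₀ hr.1.ne' h1).symm
  obtain ⟨n, hn⟩ := (key2 hh hρ b a).2 h3
  have hπ := two_pi_pos
  have h4 : (n : ℝ) * (2 * π) < 1 * (2 * π) := by
    rw [← hn]
    linarith [ha.2, hb.1]
  have h5 : (-1 : ℝ) * (2 * π) < n * (2 * π) := by
    rw [← hn]
    linarith [ha.1, hb.2]
  have h6 : (n : ℝ) < 1 := lt_of_mul_lt_mul_right h4 hπ.le
  have h7 : (-1 : ℝ) < n := lt_of_mul_lt_mul_right h5 hπ.le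
  have h8 : n < 1 := by exact_mod_cast h6
  have h9 : -1 < n := by exact_mod_cast h7
  have h10 : n = 0 := by omega
  rw [h10] at hn
  simp only [Int.cast_zero, zero_mul] at hn
  have h11 : a = b := by linarith
  rw [h11]

theorem image_Ph (hh : C2P h) (h0 : ∀ θ, 0 < h θ) (hρ : ∀ θ, 0 < rho h θ) :
    Ph h '' SS = OM h \ {0} := by
  apply Subset.antisymm
  · rintro _ ⟨⟨a, r⟩, ⟨ha, hr⟩, rfl⟩
    simp only at ha hr
    refine ⟨fun c => ?_, ?_⟩
    · have k := (key2 hh hρ a c).1
      change r * yy h a * cos c + r * zz h a * sin c < h c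
      calc r * yy h a * cos c + r * zz h a * sin c
          = r * (yy h a * cos c + zz h a * sin c) := by ring
        _ ≤ r * h c := mul_le_mul_of_nonneg_left k hr.1.le
        _ < 1 * h c := mul_lt_mul_of_pos_right hr.2 (h0 c)
        _ = h c := one_mul _
    · intro h1
      have h2 : Ph h (a, r) = 0 := h1
      have e1 : r * yy h a = 0 := congrArg Prod.fst h2
      have e2 : r * zz h a = 0 := congrArg Prod.snd h2
      have h3 : r * h a = 0 := by
        rw [← P_self h a]
        linear_combination cos a * e1 + sin a * e2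
      exact (mul_pos hr.1 (h0 a)).ne' h3
  · rintro ⟨x, y⟩ ⟨hx, hne⟩
    have hx' : ∀ θ, x * cos θ + y * sin θ < h θ := hx
    have hgc : Continuous fun θ => (x * cos θ + y * sin θ) / h θ :=
      ((continuous_const.mul continuous_cos).add (continuous_const.mul continuous_sin)).div
        (cont_h hh) fun θ => (h0 θ).ne'
    have hgp : Function.Periodic (fun θ => (x * cos θ + y * sin θ) / h θ) (2 * π) := by
      intro θ
      simp only [cos_add_two_pi, sin_add_two_pi, hh.2 θ]
    obtain ⟨t, -, hmax⟩ := isCompact_Icc.exists_isMaxOn (nonempty_Icc.2 two_pi_pos.le)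
      hgc.continuousOn
    obtain ⟨t', ht', e⟩ := hgp.exists_mem_Ico₀ two_pi_pos t
    obtain ⟨r, hr⟩ : ∃ r, r = (x * cos t' + y * sin t') / h t' := ⟨_, rfl⟩
    have hall : ∀ θ, x * cos θ + y * sin θ ≤ r * h θ := by
      intro θ
      obtain ⟨θ', hθ', e'⟩ := hgp.exists_mem_Ico₀ two_pi_pos θ
      have h1 := hmax (⟨hθ'.1, hθ'.2.le⟩ : θ' ∈ Icc 0 (2 * π))
      simp only [mem_ofPred_eq] at h1
      rw [← e', e, ← hr] at h1
      exact (div_le_iff₀ (h0 θ)).1 h1
    have heq : x * cos t' + y * sin t' = r * h t' := by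
      rw [hr, div_mul_cancel₀ _ (h0 t').ne']
    have hr1 : r < 1 := by
      rw [hr]
      exact (div_lt_one (h0 t')).2 (hx' t')
    have hr0 : 0 < r := by
      by_contra hc
      push Not at hc
      apply hne
      have hn : ∀ θ, r * h θ ≤ 0 := fun θ => mul_nonpos_of_nonpos_of_nonneg hc (h0 θ).le
      have c0 := (hall 0).trans (hn 0)
      have c1 := (hall π).trans (hn π)
      have c2 := (hall (π / 2)).trans (hn _)
      have c3 := (hall (-(π / 2))).trans (hn _)
      simp only [cos_zero, sin_zero, mul_one, mul_zero, add_zero] at c0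
      simp only [cos_pi, sin_pi, mul_neg, mul_one, mul_zero, add_zero] at c1
      simp only [cos_pi_div_two, sin_pi_div_two, mul_one, mul_zero, zero_add] at c2
      simp only [cos_neg, sin_neg, cos_pi_div_two, sin_pi_div_two, mul_neg, mul_one, mul_zero,
        zero_add] at c3
      have hx0 : x = 0 := by linarith
      have hy0 : y = 0 := by linarith
      rw [hx0, hy0]
      rfl
    have hF : HasDerivAt (fun θ => x * cos θ + y * sin θ - r * h θ)
        (x * (-sin t') + y * cos t' - r * deriv h t') t' :=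
      (((hasDerivAt_cos t').const_mul x).add ((hasDerivAt_sin t').const_mul y)).sub
        ((hd1 hh t').const_mul r)
    have hloc : IsLocalMax (fun θ => x * cos θ + y * sin θ - r * h θ) t' :=
      Filter.Eventually.of_forall fun θ => by
        have h1 := hall θ
        simp only
        linarith
    have hd0 := hloc.hasDerivAt_eq_zero hF
    refine ⟨(t', r), ⟨ht', hr0, hr1⟩, ?_⟩
    refine Prod.ext ?_ ?_
    · change r * (h t' * cos t' - deriv h t' * sin t') = x
      linear_combination (-cos t') * heq + sin t' * hd0 + x * sin_sq_add_cos_sq t'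
    · change r * (h t' * sin t' + deriv h t' * cos t') = y
      linear_combination (-sin t') * heq - cos t' * hd0 + y * sin_sq_add_cos_sq t'

/-! ### Change of variables -/

/-- the derivative of the parametrization -/
noncomputable def dPh (h : ℝ → ℝ) (p : ℝ × ℝ) : ℝ × ℝ →L[ℝ] ℝ × ℝ :=
  LinearMap.toContinuousLinearMap (Matrix.toLin (Module.Basis.finTwoProd ℝ)
    (Module.Basis.finTwoProd ℝ) !![p.2 * -(rho h p.1 * sin p.1), yy h p.1;
      p.2 * (rho h p.1 * cos p.1), zz h p.1])

theorem hasFDerivAt_Ph (hh : C2P h) (p : ℝ × ℝ) : HasFDerivAt (Ph h) (dPh h p) p := by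
  unfold dPh
  rw [Matrix.toLin_finTwoProd_toContinuousLinearMap]
  have hf : HasFDerivAt (fun p : ℝ × ℝ => p.1) (ContinuousLinearMap.fst ℝ ℝ ℝ) p :=
    hasFDerivAt_fst
  have hs : HasFDerivAt (fun p : ℝ × ℝ => p.2) (ContinuousLinearMap.snd ℝ ℝ ℝ) p :=
    hasFDerivAt_snd
  have h3 : HasFDerivAt (fun p : ℝ × ℝ => yy h p.1)
      ((-(rho h p.1 * sin p.1)) • ContinuousLinearMap.fst ℝ ℝ ℝ) p :=
    (hasDerivAt_yy hh p.1).comp_hasFDerivAt p hf
  have h4 : HasFDerivAt (fun p : ℝ × ℝ => zz h p.1)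
      ((rho h p.1 * cos p.1) • ContinuousLinearMap.fst ℝ ℝ ℝ) p :=
    (hasDerivAt_zz hh p.1).comp_hasFDerivAt p hf
  have h1 := hs.mul h3
  have h2 := hs.mul h4
  refine (HasFDerivAt.prodMk (𝕜 := ℝ) h1 h2).congr_fderiv ?_
  ext <;> simp

theorem det_dPh (p : ℝ × ℝ) : (dPh h p).det = -(p.2 * (h p.1 * rho h p.1)) := by
  unfold dPh
  simp only [LinearMap.det_toContinuousLinearMap, LinearMap.det_toLin, Matrix.det_fin_two_of]
  rw [← P_self h p.1]
  ring

theorem cov (hh : C2P h) (h0 : ∀ θ, 0 < h θ) (hρ : ∀ θ, 0 < rho h θ) (f : ℝ × ℝ → ℂ) :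
    ∫ p in OM h, f p = ∫ p in SS, (p.2 * (h p.1 * rho h p.1)) • f (Ph h p) := by
  have hm : MeasurableSet SS := measurableSet_Ico.prod measurableSet_Ioo
  have h1 := integral_image_eq_integral_abs_det_fderiv_smul volume hm
    (fun p _ => (hasFDerivAt_Ph hh p).hasFDerivWithinAt) (inj_Ph hh h0 hρ) f
  rw [image_Ph hh h0 hρ] at h1
  have h2 : (OM h \ {0} : Set (ℝ × ℝ)) =ᵐ[volume] OM h :=
    sdiff_null_ae_eq_self (measure_singleton _)
  rw [← setIntegral_congr_set h2, h1]
  refine setIntegral_congr_fun hm fun p hp => ?_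
  rw [det_dPh, abs_neg, abs_of_nonneg]
  exact mul_nonneg hp.2.1.le (mul_pos (h0 _) (hρ _)).le

theorem cont_yy (hh : C2P h) : Continuous (yy h) :=
  continuous_iff_continuousAt.2 fun x => (hasDerivAt_yy hh x).continuousAt

/-- **AREA** -/
theorem area_thm : S_AREA := by
  intro h hh h0 hρ κ
  -- from the complex plane to the real plane
  have e1 : ∫ x in Om h, Complex.exp (Complex.I * (κ * x.re)) =
      ∫ p in OM h, Complex.exp (Complex.I * (κ * (p.1 : ℂ))) := by
    have h1 := Complex.volume_preserving_equiv_real_prod.setIntegral_preimage_emb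
      Complex.measurableEquivRealProd.measurableEmbedding
      (fun p : ℝ × ℝ => Complex.exp (Complex.I * (κ * (p.1 : ℂ)))) (OM h)
    exact h1
  rw [e1, cov hh h0 hρ]
  have hcont : Continuous fun p : ℝ × ℝ => (p.2 * (h p.1 * rho h p.1)) •
      Complex.exp (Complex.I * (κ * ((Ph h p).1 : ℂ))) := by
    have c1 := cont_h hh
    have c2 := cont_rho hh
    have c3 := cont_yy hh
    unfold Ph
    fun_prop
  have hint : IntegrableOn (fun p : ℝ × ℝ => (p.2 * (h p.1 * rho h p.1)) •
      Complex.exp (Complex.I * (κ * ((Ph h p).1 : ℂ)))) SS (volume.prod volume) := by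
    have h1 : IntegrableOn (fun p : ℝ × ℝ => (p.2 * (h p.1 * rho h p.1)) •
      Complex.exp (Complex.I * (κ * ((Ph h p).1 : ℂ)))) (Icc 0 (2 * π) ×ˢ Icc 0 1)
      (volume.prod volume) :=
      hcont.continuousOn.integrableOn_compact (isCompact_Icc.prod isCompact_Icc)
    exact h1.mono_set (prod_mono Ico_subset_Icc_self Ioo_subset_Icc_self)
  rw [Measure.volume_eq_prod, SS, setIntegral_prod _ hint,
    intervalIntegral.integral_of_le two_pi_pos.le, integral_Ico_eq_integral_Ioo,
    integral_Ioc_eq_integral_Ioo]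
  refine setIntegral_congr_fun measurableSet_Ioo fun θ _ => ?_
  simp only
  unfold EE
  rw [intervalIntegral.integral_of_le zero_le_one, integral_Ioc_eq_integral_Ioo,
    ← integral_mul_const]
  refine setIntegral_congr_fun measurableSet_Ioo fun r _ => ?_
  simp only [Ph]
  rw [Complex.real_smul]
  push_cast
  have h1 : Complex.I * ((κ : ℂ) * ((r : ℂ) * (yy h θ : ℂ))) =
      (r : ℂ) * (Complex.I * κ * yy h θ) := by ring
  rw [h1]
  ring

end

end Pool.Agent.Z932.MK
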